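import Pool.Agent.W_7d29a1_h60.LuckBound

/-!
The luck bound (2c') of storm G+ (helper42): slots of length `l`, a traveller who visits reference points
`a_i = (i l, z_i)` and accepts the slot `i` with probability `g` (a function of the environment seen from `a_i`).
The free energy of a slot under any law with a bounded density is at most `6 A`. (helper60)
-/

namespace Pool.Agent.W_7d29a1_h60

open MeasureTheory ProbabilityTheory Filter Topology Pool.Agent.W_7d29a1_F

variable {μ : Measure ℝ} [IsProbabilityMeasure μ] {s : ℝ}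

/-- The functions of the environment seen from `a`. -/
theorem sh_dep {g : Env → ℝ} {l : ℕ} (hg : DependsOn g (rows 0 l)) (a : Pt) :
    DependsOn (fun η => g (sh a η)) (rows a.1 (a.1 + l)) := by
  intro η η' h
  refine hg fun p hp => ?_
  show η (p + a) = η' (p + a)
  refine h _ ⟨?_, ?_⟩
  · have h1 := hp.1
    show a.1 < p.1 + a.1
    omega
  · have h1 := hp.2
    show p.1 + a.1 ≤ a.1 + l
    omega

theorem sh_meas {g : Env → ℝ} (hg : Measurable g) (a : Pt) : Measurable fun η => g (sh a η) :=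
  hg.comp (mp_sh (μ := Measure.dirac (0 : ℝ)) a).measurable

theorem sh_int {g : Env → ℝ} (hg : Measurable g) (a : Pt) :
    ∫ η, g (sh a η) ∂(law μ) = ∫ η, g η ∂(law μ) := by
  have h := (mp_sh (μ := μ) a).map_eq
  conv_rhs => rw [← h]
  rw [integral_map (mp_sh (μ := μ) a).measurable.aemeasurable hg.aestronglyMeasurable]

/-- The luck bound with acceptance weights. -/
theorem luck_bound_w (hEM : Pool.Agent.W_7d29a1_h47.EM μ) (s : ℝ) (l N : ℕ) (z : ℕ → ℤ)
    (hz : ∀ i ≤ N, 0 ≤ z i ∧ z i ≤ (i * l : ℕ)) {A : ℝ} {g : Env → ℝ} (hgm : Measurable g)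
    (hg0 : ∀ η, 0 ≤ g η) (hg1 : ∀ η, g η ≤ 1) (hgd : DependsOn g (rows 0 l))
    (hX : ∀ i ≤ N, ∫ η, max (X μ s η 0 (i * l) (z i)) 0 ∂(law μ) ≤ A)
    (hV : ∀ i < N, -A ≤ ∫ η, V μ s η 0 ((N - i - 1) * l) ∂(law μ)) :
    (1 - (1 - ∫ η, g η ∂(law μ)) ^ N) * ∫ η, g η * V μ s η 0 l ∂(law μ) ≤
      (∫ η, g η ∂(law μ)) * ((2 + N * ∫ η, g η ∂(law μ)) * A) := by
  classical
  have hA : 0 ≤ A := (integral_nonneg fun η => le_max_right _ _).trans (hX 0 (Nat.zero_le _))
  obtain ⟨q, hq⟩ : ∃ q : ℝ, q = ∫ η, g η ∂(law μ) := ⟨_, rfl⟩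
  obtain ⟨G, hG⟩ : ∃ G : ℝ, G = ∫ η, g η * V μ s η 0 l ∂(law μ) := ⟨_, rfl⟩
  have hgS : Sub g := Sub_bdd hgm fun η => by
    rw [abs_of_nonneg (hg0 η)]
    exact hg1 η
  have hq0 : 0 ≤ q := by
    rw [hq]
    exact integral_nonneg hg0
  obtain ⟨a, ha⟩ : ∃ a : ℕ → Pt, a = fun i => (((i * l : ℕ) : ℤ), z i) := ⟨_, rfl⟩
  have ha1 : ∀ i, (a i).1 = ((i * l : ℕ) : ℤ) := fun i => by rw [ha]
  have ha2 : ∀ i, (a i).1 + (l : ℤ) = (((i + 1) * l : ℕ) : ℤ) := by
    intro i
    rw [ha1]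
    push_cast
    ring
  obtain ⟨γ, hγ⟩ : ∃ γ : ℕ → Env → ℝ, γ = fun i η => g (sh (a i) η) := ⟨_, rfl⟩
  have hγ0 : ∀ i η, 0 ≤ γ i η := fun i η => by rw [hγ]; exact hg0 _
  have hγ1 : ∀ i η, γ i η ≤ 1 := fun i η => by rw [hγ]; exact hg1 _
  have hγm : ∀ i, Measurable (γ i) := fun i => by
    rw [hγ]
    exact sh_meas hgm (a i)
  have hγd : ∀ i : ℕ, DependsOn (γ i) (rows ((i * l : ℕ) : ℤ) (((i + 1) * l : ℕ) : ℤ)) := by
    intro i
    rw [hγ, ← ha1 i, ← ha2 i]
    exact sh_dep hgd (a i)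
  have hγi : ∀ i, ∫ η, γ i η ∂(law μ) = q := by
    intro i
    rw [hγ, hq]
    exact sh_int hgm (a i)
  have hγS : ∀ i, Sub (γ i) := fun i => Sub_bdd (hγm i) fun η => by
    rw [abs_of_nonneg (hγ0 i η)]
    exact hγ1 i η
  -- the survival weights
  obtain ⟨P, hP⟩ : ∃ P : ℕ → Env → ℝ, P = fun i η => ∏ k ∈ Finset.range i, (1 - γ k η) := ⟨_, rfl⟩
  have hPs : ∀ i η, P (i + 1) η = P i η * (1 - γ i η) := by
    intro i η
    rw [hP]
    exact Finset.prod_range_succ _ _
  have hP00 : ∀ η, P 0 η = 1 := fun η => by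
    rw [hP]
    exact Finset.prod_range_zero _
  have hP0 : ∀ i η, 0 ≤ P i η := fun i η => by
    rw [hP]
    exact Finset.prod_nonneg fun k _ => by linarith [hγ1 k η]
  have hP1 : ∀ i η, P i η ≤ 1 := fun i η => by
    rw [hP]
    exact Finset.prod_le_one (fun k _ => by linarith [hγ1 k η]) fun k _ => by linarith [hγ0 k η]
  have hPm : ∀ i, Measurable (P i) := fun i => by
    rw [hP]
    exact Finset.measurable_prod _ fun k _ => measurable_const.sub (hγm k)
  have hPd : ∀ i : ℕ, DependsOn (P i) (rows 0 ((i * l : ℕ) : ℤ)) := by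
    intro i η η' h
    rw [hP]
    refine Finset.prod_congr rfl fun k hk => ?_
    have hk' := Finset.mem_range.1 hk
    have h1 : γ k η = γ k η' := hγd k fun x hx => h x (rows_mono (Int.natCast_nonneg _) (by
      have : (k + 1) * l ≤ i * l := Nat.mul_le_mul_right l hk'
      exact_mod_cast this) hx)
    rw [h1]
  have hPi : ∀ i : ℕ, ∫ η, P i η ∂(law μ) = (1 - q) ^ i := by
    intro i
    rw [hP, indep_prod (μ := μ) (Finset.range i) (fun k η => 1 - γ k η)
      (fun k => rows ((k * l : ℕ) : ℤ) (((k + 1) * l : ℕ) : ℤ))]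
    · rw [Finset.prod_congr rfl (g := fun _ => 1 - q), Finset.prod_const, Finset.card_range]
      intro k _
      rw [integral_sub (integrable_const _) ((hγS k).integrable hEM), integral_const, probReal_univ, one_smul, hγi]
    · exact fun k _ => measurable_const.sub (hγm k)
    · intro k _ η η' h
      show 1 - γ k η = 1 - γ k η'
      rw [hγd k h]
    · intro k _ j _ hij
      rcases lt_or_gt_of_ne hij with h | h
      · refine rows_disj ?_
        have : (k + 1) * l ≤ j * l := Nat.mul_le_mul_right l h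
        exact_mod_cast this
      · refine (rows_disj ?_).symm
        have : (j + 1) * l ≤ k * l := Nat.mul_le_mul_right l h
        exact_mod_cast this
  -- the weights of the accepted slot
  obtain ⟨ω, hω⟩ : ∃ ω : ℕ → Env → ℝ, ω = fun i η => P i η * γ i η := ⟨_, rfl⟩
  have hω0 : ∀ i η, 0 ≤ ω i η := fun i η => by
    rw [hω]
    exact mul_nonneg (hP0 i η) (hγ0 i η)
  have hωγ : ∀ i η, ω i η ≤ γ i η := fun i η => by
    rw [hω]
    have h1 := mul_le_mul_of_nonneg_right (hP1 i η) (hγ0 i η)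
    show P i η * γ i η ≤ γ i η
    linarith
  have hω1 : ∀ i η, ω i η ≤ 1 := fun i η => (hωγ i η).trans (hγ1 i η)
  have hωm : ∀ i, Measurable (ω i) := fun i => by
    rw [hω]
    exact (hPm i).mul (hγm i)
  have hωS : ∀ i, Sub (ω i) := fun i => Sub_bdd (hωm i) fun η => by
    rw [abs_of_nonneg (hω0 i η)]
    exact hω1 i η
  have hωd : ∀ i : ℕ, DependsOn (ω i) (rows 0 (((i + 1) * l : ℕ) : ℤ)) := by
    intro i η η' h
    rw [hω]
    show P i η * γ i η = P i η' * γ i η'
    have h0 : (i * l : ℕ) ≤ (i + 1) * l := Nat.mul_le_mul_right l (Nat.le_succ i)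
    rw [hPd i fun x hx => h x (rows_mono le_rfl (by exact_mod_cast h0) hx),
      hγd i fun x hx => h x (rows_mono (Int.natCast_nonneg _) le_rfl hx)]
  have hωsum : ∀ (n : ℕ) (η : Env), ∑ i ∈ Finset.range n, ω i η + P n η = 1 := by
    intro n η
    induction n with
    | zero => rw [Finset.sum_range_zero, hP00, zero_add]
    | succ n ih =>
      rw [Finset.sum_range_succ, hPs]
      have h1 : ω n η = P n η * γ n η := by rw [hω]
      rw [h1]
      linarith
  -- the luck of the accepted slot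
  have hVa : ∀ i η, V μ s η (a i) l = V μ s (sh (a i) η) 0 l := by
    intro i η
    rw [V_sh, zero_add]
  have hωV : ∀ i : ℕ, ∫ η, ω i η * V μ s η (a i) l ∂(law μ) = (1 - q) ^ i * G := by
    intro i
    have e1 : ∀ η, ω i η * V μ s η (a i) l = P i η * (γ i η * V μ s η (a i) l) := by
      intro η
      rw [hω]
      ring
    simp only [e1]
    have h1 : Measurable fun η => γ i η * V μ s η (a i) l := (hγm i).mul (measurable_V _ _)
    have h2 : DependsOn (fun η => γ i η * V μ s η (a i) l) (rows ((i * l : ℕ) : ℤ) (((i + 1) * l : ℕ) : ℤ)) := by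
      intro η η' h
      have h3 : V μ s η (a i) l = V μ s η' (a i) l := by
        refine V_dep_rows (μ := μ) (s := s) _ _ fun x hx => h x ?_
        rw [ha1, ← ha1 i, ha2] at hx
        rw [← ha1 i]
        exact hx
      show γ i η * V μ s η (a i) l = γ i η' * V μ s η' (a i) l
      rw [h3, hγd i h]
    rw [integral_indep (hPm i) h1 (hPd i) h2 (rows_disj le_rfl), hPi]
    congr 1
    have h4 : Measurable fun η => g η * V μ s η 0 l := hgm.mul (measurable_V _ _)
    rw [hG, ← sh_int (μ := μ) h4 (a i)]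
    refine integral_congr_ae (Filter.Eventually.of_forall fun η => ?_)
    show γ i η * V μ s η (a i) l = g (sh (a i) η) * V μ s (sh (a i) η) 0 l
    rw [hVa, hγ]
  -- the continuation
  obtain ⟨R, hR⟩ : ∃ R : ℕ → Env → ℝ, R = fun i η => (∑ k ∈ Finset.Icc (0 : ℤ) l,
      W μ s η (a i) l k * V μ s η ((a i).1 + l, (a i).2 + k) ((N - i - 1) * l)) / Real.exp (V μ s η (a i) l) :=
    ⟨_, rfl⟩
  have hRi : ∀ i : ℕ, Integrable (fun η => ω i η * R i η) (law μ) ∧
      ∫ η, ω i η * R i η ∂(law μ) = (∫ η, ω i η ∂(law μ)) * ∫ η, V μ s η 0 ((N - i - 1) * l) ∂(law μ) := by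
    intro i
    rw [hR]
    refine continuation hEM (a i) l ((N - i - 1) * l) (hωm i) (hω0 i) (hω1 i) (c := 0) ?_ ?_ ?_
    · rw [ha2]
      exact Int.natCast_nonneg _
    · rw [ha2]
      exact hωd i
    · rw [ha1]
      exact Int.natCast_nonneg _
  -- the pointwise inequality
  have hend : ∀ i ∈ Finset.range N, ∀ η : Env, -max (X μ s η 0 (i * l) (z i)) 0 + (V μ s η (a i) l + R i η) ≤
      V μ s η 0 (N * l) := by
    intro i hi η
    have hiN := Finset.mem_range.1 hi
    have h1 := V_add_ge (μ := μ) (s := s) η (0 : Pt) (i * l) (l + (N - i - 1) * l) (k := z i)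
      (hz i hiN.le).1 (hz i hiN.le).2
    have e1 : i * l + (l + (N - i - 1) * l) = N * l := by
      obtain ⟨d, rfl⟩ : ∃ d, N = i + 1 + d := ⟨N - i - 1, by omega⟩
      have : i + 1 + d - i - 1 = d := by omega
      rw [this]
      ring
    rw [e1] at h1
    have e2 : (((0 : Pt).1 + ((i * l : ℕ) : ℤ), (0 : Pt).2 + z i) : Pt) = a i := by
      rw [ha]
      simp
    rw [e2] at h1
    have h2 := V_add_jensen (μ := μ) (s := s) η (a i) l ((N - i - 1) * l)
    have h3 := le_max_left (X μ s η 0 (i * l) (z i)) 0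
    have h4 : R i η = (∑ k ∈ Finset.Icc (0 : ℤ) l,
      W μ s η (a i) l k * V μ s η ((a i).1 + l, (a i).2 + k) ((N - i - 1) * l)) / Real.exp (V μ s η (a i) l) := by
      rw [hR]
    rw [← h4] at h2
    linarith
  have hlast : ∀ η : Env, -max (X μ s η 0 (N * l) (z N)) 0 ≤ V μ s η 0 (N * l) := by
    intro η
    have h1 := neg_X_le_V (μ := μ) (s := s) η (0 : Pt) (n := N * l) (y := z N) (hz N le_rfl).1 (hz N le_rfl).2
    have h3 := le_max_left (X μ s η 0 (N * l) (z N)) 0
    linarith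
  have hpt : ∀ η : Env, ∑ i ∈ Finset.range N, ω i η * V μ s η (a i) l + ∑ i ∈ Finset.range N, ω i η * R i η ≤
      V μ s η 0 (N * l) + (∑ i ∈ Finset.range N, γ i η * max (X μ s η 0 (i * l) (z i)) 0) +
        max (X μ s η 0 (N * l) (z N)) 0 := by
    intro η
    obtain ⟨v, hv⟩ : ∃ v, v = V μ s η 0 (N * l) := ⟨_, rfl⟩
    have h1 : ∀ i ∈ Finset.range N, ω i η * V μ s η (a i) l + ω i η * R i η ≤
        ω i η * v + γ i η * max (X μ s η 0 (i * l) (z i)) 0 := by
      intro i hi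
      have h2 := mul_le_mul_of_nonneg_left (hend i hi η) (hω0 i η)
      have h4 := mul_le_mul_of_nonneg_right (hωγ i η) (le_max_right (X μ s η 0 (i * l) (z i)) 0)
      rw [← hv] at h2
      nlinarith
    have h2 := Finset.sum_le_sum h1
    rw [Finset.sum_add_distrib, Finset.sum_add_distrib, ← Finset.sum_mul] at h2
    have h3 := mul_le_mul_of_nonneg_left (hlast η) (hP0 N η)
    have h4 := mul_le_mul_of_nonneg_right (hP1 N η) (le_max_right (X μ s η 0 (N * l) (z N)) 0)
    have h5 := hωsum N η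
    have h6 : ∑ i ∈ Finset.range N, ω i η = 1 - P N η := by linarith
    rw [h6] at h2
    rw [← hv] at h3 ⊢
    nlinarith
  -- integrals
  have hVs : Sub fun η => V μ s η 0 (N * l) := Sub_V _ _
  have hXs : ∀ i ≤ N, Sub fun η => max (X μ s η 0 (i * l) (z i)) 0 := fun i hi =>
    (Sub_X 0 (hz i hi).1 (hz i hi).2).max (Sub.const 0)
  have hind : ∀ i ∈ Finset.range N, ∫ η, γ i η * max (X μ s η 0 (i * l) (z i)) 0 ∂(law μ) ≤ q * A := by
    intro i hi
    have hiN := Finset.mem_range.1 hi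
    have h3 : DependsOn (fun η => max (X μ s η 0 (i * l) (z i)) 0) (rows 0 ((i * l : ℕ) : ℤ)) := by
      intro η η' h
      have h4 : X μ s η 0 (i * l) (z i) = X μ s η' 0 (i * l) (z i) := by
        refine X_dep_rows (μ := μ) (s := s) 0 (i * l) (z i) fun x hx => h x (rows_mono ?_ ?_ hx)
        · exact le_rfl
        · show (0 : ℤ) + ((i * l : ℕ) : ℤ) ≤ _
          rw [zero_add]
      show max (X μ s η 0 (i * l) (z i)) 0 = max (X μ s η' 0 (i * l) (z i)) 0
      rw [h4]
    rw [integral_indep (hγm i) (hXs i hiN.le).1 (hγd i) h3 (rows_disj le_rfl).symm, hγi]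
    exact mul_le_mul_of_nonneg_left (hX i hiN.le) hq0
  have I1' : ∀ i ∈ Finset.range N, Integrable (fun η => ω i η * V μ s η (a i) l) (law μ) := fun i _ =>
    Sub.mul_integrable hEM (hωS i) (Sub_V _ _)
  have I1 : Integrable (fun η => ∑ i ∈ Finset.range N, ω i η * V μ s η (a i) l) (law μ) :=
    integrable_finsetSum _ I1'
  have I2 : Integrable (fun η => ∑ i ∈ Finset.range N, ω i η * R i η) (law μ) :=
    integrable_finsetSum _ fun i _ => (hRi i).1
  have I3 : ∀ i ∈ Finset.range N, Integrable (fun η => γ i η * max (X μ s η 0 (i * l) (z i)) 0) (law μ) :=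
    fun i hi => Sub.mul_integrable hEM (hγS i) (hXs i (Finset.mem_range.1 hi).le)
  have I4 : Integrable (fun η => ∑ i ∈ Finset.range N, γ i η * max (X μ s η 0 (i * l) (z i)) 0) (law μ) :=
    integrable_finsetSum _ I3
  have I5 := hVs.integrable hEM
  have I6 := (hXs N le_rfl).integrable hEM
  have I7 : Integrable (fun η => V μ s η 0 (N * l) +
      ∑ i ∈ Finset.range N, γ i η * max (X μ s η 0 (i * l) (z i)) 0) (law μ) := I5.add I4
  have hint := integral_mono (I1.add I2) (I7.add I6) hpt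
  simp only [Pi.add_apply] at hint
  rw [integral_add I1 I2, integral_add I7 I6, integral_add I5 I4, integral_finsetSum _ I1',
    integral_finsetSum _ fun i _ => (hRi i).1, integral_finsetSum _ I3] at hint
  have hVn : ∫ η, V μ s η 0 (N * l) ∂(law μ) ≤ 0 := integral_V_nonpos hEM s (N * l)
  have hXN := hX N le_rfl
  have h1 : ∑ i ∈ Finset.range N, ∫ η, γ i η * max (X μ s η 0 (i * l) (z i)) 0 ∂(law μ) ≤ N * (q * A) := by
    refine (Finset.sum_le_sum hind).trans_eq ?_
    rw [Finset.sum_const, Finset.card_range, nsmul_eq_mul]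
  have h2 : -A ≤ ∑ i ∈ Finset.range N, ∫ η, ω i η * R i η ∂(law μ) := by
    have h3 : ∀ i ∈ Finset.range N, (∫ η, ω i η ∂(law μ)) * (-A) ≤ ∫ η, ω i η * R i η ∂(law μ) := by
      intro i hi
      rw [(hRi i).2]
      exact mul_le_mul_of_nonneg_left (hV i (Finset.mem_range.1 hi)) (integral_nonneg fun η => hω0 i η)
    have h4 := Finset.sum_le_sum h3
    rw [← Finset.sum_mul, ← integral_finsetSum _ fun i _ => (hωS i).integrable hEM] at h4
    have h5 : ∫ η, ∑ i ∈ Finset.range N, ω i η ∂(law μ) ≤ 1 := by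
      have h6 := integral_mono (integrable_finsetSum (Finset.range N) fun i _ => (hωS i).integrable hEM)
        (integrable_const (1 : ℝ)) fun η => by
          have h7 := hωsum N η
          have h8 := hP0 N η
          show ∑ i ∈ Finset.range N, ω i η ≤ 1
          linarith
      simpa using h6
    have h6 : 0 ≤ ∫ η, ∑ i ∈ Finset.range N, ω i η ∂(law μ) :=
      integral_nonneg fun η => Finset.sum_nonneg fun i _ => hω0 i η
    nlinarith
  have h3 : (∑ i ∈ Finset.range N, ∫ η, ω i η * V μ s η (a i) l ∂(law μ)) * q = (1 - (1 - q) ^ N) * G := by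
    rw [Finset.sum_congr rfl fun i _ => hωV i, ← Finset.sum_mul]
    have h4 : ∀ n : ℕ, (∑ i ∈ Finset.range n, (1 - q) ^ i) * q = 1 - (1 - q) ^ n := by
      intro n
      induction n with
      | zero => simp
      | succ n ih =>
        rw [Finset.sum_range_succ, add_mul, ih, pow_succ]
        ring
    rw [mul_right_comm, h4]
  rw [← hq, ← hG, ← h3]
  have h4 : (∑ i ∈ Finset.range N, ∫ η, ω i η * V μ s η (a i) l ∂(law μ)) ≤ (2 + N * q) * A := by
    linarith
  nlinarith

/-- `N = ⌊1 / q⌋` slots are enough. -/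
theorem half_le {q : ℝ} (h0 : 0 < q) (h1 : q ≤ 1) : ∃ N : ℕ, 1 ≤ N ∧ N * q ≤ 1 ∧ (1 - q) ^ N ≤ 1 / 2 := by
  obtain ⟨N, hN⟩ : ∃ N : ℕ, N = ⌊1 / q⌋₊ := ⟨_, rfl⟩
  have hN1 : (N : ℝ) ≤ 1 / q := by
    rw [hN]
    exact Nat.floor_le (by positivity)
  have hN2 : 1 / q < N + 1 := by
    rw [hN]
    exact Nat.lt_floor_add_one _
  have hNp : N * q ≤ 1 := by
    rwa [le_div_iff₀ h0] at hN1
  have hNp2 : 1 < (N + 1) * q := by
    rwa [div_lt_iff₀ h0] at hN2
  have hN0 : 1 ≤ N := by
    rw [hN]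
    refine Nat.le_floor ?_
    rw [Nat.cast_one, le_div_iff₀ h0, one_mul]
    exact h1
  refine ⟨N, hN0, hNp, ?_⟩
  have h1 : 1 - q ≤ N / (N + 1) := by
    rw [le_div_iff₀ (by positivity)]
    nlinarith
  have h2 : (1 - q) ^ N ≤ ((N : ℝ) / (N + 1)) ^ N := pow_le_pow_left₀ (by linarith) h1 N
  have h3 : (2 : ℝ) ≤ ((N + 1 : ℝ) / N) ^ N := by
    have hN' : (0 : ℝ) < N := by exact_mod_cast hN0
    have h4 := one_add_mul_le_pow (a := 1 / (N : ℝ)) (by
      have : 0 < 1 / (N : ℝ) := by positivity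
      linarith) N
    have h5 : 1 + (N : ℝ) * (1 / N) = 2 := by
      rw [mul_one_div_cancel hN'.ne']
      norm_num
    have h6 : (1 + 1 / (N : ℝ)) = (N + 1) / N := by
      field_simp
    rw [h5, h6] at h4
    exact h4
  have h4 : ((N : ℝ) / (N + 1)) ^ N = 1 / (((N + 1 : ℝ) / N) ^ N) := by
    rw [← one_div_pow, one_div_div]
  rw [h4] at h2
  exact h2.trans (one_div_le_one_div_of_le (by norm_num) h3)

/-- (2c'): THE LUCK BOUND FOR A BOUNDED DENSITY. If all the reference displacements `(m, z_m)`, `m ≤ M`, cost at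
most `A` in the mean (positive part), the free energy of a slot of length `l` under the law with density `f ≤ D`,
`D l ≤ M`, is at most `6 A`. No light cone, no regularity, any tilt, any law with exponential moments. -/
theorem luck_density (hEM : Pool.Agent.W_7d29a1_h47.EM μ) (s : ℝ) (l M : ℕ) (z : ℕ → ℤ)
    (hz : ∀ m ≤ M, 0 ≤ z m ∧ z m ≤ m) {A D : ℝ}
    (hX : ∀ m ≤ M, ∫ η, max (X μ s η 0 m (z m)) 0 ∂(law μ) ≤ A) {f : Env → ℝ} (hfm : Measurable f)
    (hf0 : ∀ η, 0 ≤ f η) (hfD : ∀ η, f η ≤ D) (hf1 : ∫ η, f η ∂(law μ) = 1) (hfd : DependsOn f (rows 0 l))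
    (hDM : D * l ≤ M) : ∫ η, f η * V μ s η 0 l ∂(law μ) ≤ 6 * A := by
  have hA : 0 ≤ A := (integral_nonneg fun η => le_max_right _ _).trans (hX 0 (Nat.zero_le _))
  have hfb : ∀ η, |f η| ≤ |D| * (1 + ∑ p ∈ (∅ : Finset Pt), |η p|) := by
    intro η
    rw [Finset.sum_empty, add_zero, mul_one, abs_of_nonneg (hf0 η)]
    exact (hfD η).trans (le_abs_self D)
  have hfS : Sub f := ⟨hfm, ∅, |D|, abs_nonneg _, hfb⟩
  have hD1 : 1 ≤ D := by
    rw [← hf1]
    have h := integral_mono (hfS.integrable hEM) (integrable_const D) hfD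
    simpa using h
  have hD0 : 0 < D := by linarith
  obtain ⟨g, hg⟩ : ∃ g : Env → ℝ, g = fun η => f η / D := ⟨_, rfl⟩
  have hgm : Measurable g := by
    rw [hg]
    exact hfm.div_const D
  have hg0 : ∀ η, 0 ≤ g η := fun η => by
    rw [hg]
    exact div_nonneg (hf0 η) hD0.le
  have hg1 : ∀ η, g η ≤ 1 := fun η => by
    rw [hg]
    exact (div_le_one hD0).2 (hfD η)
  have hgd : DependsOn g (rows 0 l) := by
    intro η η' h
    rw [hg]
    show f η / D = f η' / D
    rw [hfd h]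
  have hgi : ∫ η, g η ∂(law μ) = 1 / D := by
    rw [hg, integral_div, hf1]
  have hgV : ∫ η, g η * V μ s η 0 l ∂(law μ) = (∫ η, f η * V μ s η 0 l ∂(law μ)) / D := by
    rw [hg, ← integral_div]
    refine integral_congr_ae (Filter.Eventually.of_forall fun η => ?_)
    show f η / D * V μ s η 0 l = f η * V μ s η 0 l / D
    ring
  obtain ⟨N, hN0, hN1, hN2⟩ := half_le (q := 1 / D) (by positivity) (by
    rw [div_le_one hD0]
    exact hD1)
  have hND : (N : ℝ) ≤ D := by
    rw [mul_one_div, div_le_one hD0] at hN1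
    exact hN1
  have hNM : ∀ i ≤ N, i * l ≤ M := by
    intro i hi
    have h1 : ((i * l : ℕ) : ℝ) ≤ M := by
      have h2 : (i : ℝ) ≤ N := by exact_mod_cast hi
      have h3 : (0 : ℝ) ≤ l := Nat.cast_nonneg _
      push_cast
      nlinarith
    exact_mod_cast h1
  have hlb := luck_bound_w hEM s l N (fun i => z (i * l)) (fun i hi => hz (i * l) (hNM i hi)) (A := A)
    hgm hg0 hg1 hgd (fun i hi => hX (i * l) (hNM i hi)) (by
      intro i hi
      have h1 : (N - i - 1) * l ≤ M := hNM _ (by omega)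
      have h2 := hz _ h1
      have hXs := (Sub_X (μ := μ) (s := s) 0 h2.1 h2.2).max (Sub.const 0)
      have h3 : ∫ η, -max (X μ s η 0 ((N - i - 1) * l) (z ((N - i - 1) * l))) 0 ∂(law μ) ≤
          ∫ η, V μ s η 0 ((N - i - 1) * l) ∂(law μ) := by
        refine integral_mono (hXs.integrable hEM).neg ((Sub_V 0 _).integrable hEM) fun η => ?_
        have h4 := neg_X_le_V (μ := μ) (s := s) η 0 h2.1 h2.2
        have h5 := le_max_left (X μ s η 0 ((N - i - 1) * l) (z ((N - i - 1) * l))) 0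
        show -max (X μ s η 0 ((N - i - 1) * l) (z ((N - i - 1) * l))) 0 ≤ V μ s η 0 ((N - i - 1) * l)
        linarith
      rw [integral_neg] at h3
      have h4 := hX _ h1
      linarith)
  rw [hgi, hgV] at hlb
  obtain ⟨G, hG⟩ : ∃ G : ℝ, G = ∫ η, f η * V μ s η 0 l ∂(law μ) := ⟨_, rfl⟩
  rw [← hG] at hlb ⊢
  rw [show (1 - (1 - 1 / D) ^ N) * (G / D) = ((1 - (1 - 1 / D) ^ N) * G) / D by ring,
    show 1 / D * ((2 + N * (1 / D)) * A) = ((2 + N * (1 / D)) * A) / D by ring,
    div_le_div_iff_of_pos_right hD0] at hlb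
  rcases le_or_gt G 0 with h | h
  · linarith
  · nlinarith

end Pool.Agent.W_7d29a1_h60
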