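import Pool.Agent.W_7d29a1_F.LuckA

/-!
The luck bound (2c) of storm G+ (helper10): slots of length `l`, a traveller who visits reference points
`a_i = (i l, z_i)` and takes the first lucky slot. All laws with exponential moments, all tilts `s`.
(helper60)
-/

namespace Pool.Agent.W_7d29a1_h60

open MeasureTheory ProbabilityTheory Filter Topology Pool.Agent.W_7d29a1_F

variable {μ : Measure ℝ} [IsProbabilityMeasure μ] {s : ℝ}

theorem Sub_io {p : Env → Prop} (h : MeasurableSet {η | p η}) : Sub fun η => io (p η) := by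
  refine ⟨measurable_io h, ∅, 1, zero_le_one, fun η => ?_⟩
  rw [abs_of_nonneg (io_nonneg _), Finset.sum_empty, add_zero, mul_one]
  exact io_le_one _

/-- A bounded measurable function is fine. -/
theorem Sub_bdd {f : Env → ℝ} (hm : Measurable f) (h : ∀ η, |f η| ≤ 1) : Sub f := by
  refine ⟨hm, ∅, 1, zero_le_one, fun η => ?_⟩
  rw [Finset.sum_empty, add_zero, mul_one]
  exact h η

/-- The probability that none of `N` slots is lucky. -/
theorem no_hit (l N : ℕ) (z : ℕ → ℤ) (Y : ℝ) :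
    ∫ η, (1 - io (∃ i ∈ Finset.range N, Y ≤ V μ s η (((i * l : ℕ) : ℤ), z i) l)) ∂(law μ) =
      (1 - ∫ η, io (Y ≤ V μ s η 0 l) ∂(law μ)) ^ N := by
  classical
  have e1 : ∀ η : Env, (1 - io (∃ i ∈ Finset.range N, Y ≤ V μ s η (((i * l : ℕ) : ℤ), z i) l)) =
      ∏ i ∈ Finset.range N, (1 - io (Y ≤ V μ s η (((i * l : ℕ) : ℤ), z i) l)) := by
    intro η
    by_cases h : ∃ i ∈ Finset.range N, Y ≤ V μ s η (((i * l : ℕ) : ℤ), z i) l
    · rw [io_of h]
      obtain ⟨i, hi, h1⟩ := h
      rw [Finset.prod_eq_zero hi, sub_self]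
      rw [io_of h1, sub_self]
    · rw [io_not h, Finset.prod_eq_one, sub_zero]
      intro i hi
      rw [io_not fun h1 => h ⟨i, hi, h1⟩, sub_zero]
  simp only [e1]
  have hm : ∀ a : Pt, MeasurableSet {η : Env | Y ≤ V μ s η a l} := fun a =>
    measurableSet_le measurable_const (measurable_V _ _)
  rw [indep_prod (μ := μ) (Finset.range N) (fun i η => 1 - io (Y ≤ V μ s η (((i * l : ℕ) : ℤ), z i) l))
    (fun i => rows ((i * l : ℕ) : ℤ) (((i + 1) * l : ℕ) : ℤ))]
  · rw [Finset.prod_congr rfl (g := fun _ => 1 - ∫ η, io (Y ≤ V μ s η 0 l) ∂(law μ)), Finset.prod_const,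
      Finset.card_range]
    intro i _
    have h1 : Measurable fun x : ℝ => 1 - io (Y ≤ x) := by
      have h2 : (fun x : ℝ => 1 - io (Y ≤ x)) = fun x => if x ∈ Set.Ici Y then (0 : ℝ) else 1 := by
        funext x
        by_cases h : Y ≤ x
        · rw [io_of h, if_pos (show x ∈ Set.Ici Y from h), sub_self]
        · rw [io_not h, if_neg (show ¬ x ∈ Set.Ici Y from h), sub_zero]
      rw [h2]
      exact Measurable.ite measurableSet_Ici measurable_const measurable_const
    rw [integral_V_fun (μ := μ) (s := s) h1 (((i * l : ℕ) : ℤ), z i) l]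
    rw [integral_sub (integrable_const _), integral_const, probReal_univ, one_smul]
    refine Integrable.mono' (integrable_const (1 : ℝ)) (measurable_io (hm 0)).aestronglyMeasurable
      (Filter.Eventually.of_forall fun η => ?_)
    rw [Real.norm_eq_abs, abs_of_nonneg (io_nonneg _)]
    exact io_le_one _
  · intro i _
    exact measurable_const.sub (measurable_io (hm _))
  · intro i _ η η' h
    have h1 : V μ s η (((i * l : ℕ) : ℤ), z i) l = V μ s η' (((i * l : ℕ) : ℤ), z i) l := by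
      refine V_dep_rows (μ := μ) (s := s) _ _ fun x hx => h x (rows_mono le_rfl ?_ hx)
      show ((i * l : ℕ) : ℤ) + (l : ℤ) ≤ _
      push_cast
      linarith
    show 1 - io (Y ≤ V μ s η (((i * l : ℕ) : ℤ), z i) l) = 1 - io (Y ≤ V μ s η' (((i * l : ℕ) : ℤ), z i) l)
    rw [h1]
  · intro i _ j _ hij
    rcases lt_or_gt_of_ne hij with h | h
    · refine rows_disj ?_
      have : (i + 1) * l ≤ j * l := Nat.mul_le_mul_right l h
      exact_mod_cast this
    · refine (rows_disj ?_).symm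
      have : (j + 1) * l ≤ i * l := Nat.mul_le_mul_right l h
      exact_mod_cast this

/-- The mean of the continuation. -/
theorem continuation (hEM : Pool.Agent.W_7d29a1_h47.EM μ) (a : Pt) (l m : ℕ) {ι : Env → ℝ} (hιm : Measurable ι)
    (hι0 : ∀ η, 0 ≤ ι η) (hι1 : ∀ η, ι η ≤ 1) {c : ℤ} (hc : c ≤ a.1 + l) (hιd : DependsOn ι (rows c (a.1 + l)))
    (hca : c ≤ a.1) :
    Integrable (fun η => ι η * ((∑ k ∈ Finset.Icc (0 : ℤ) l, W μ s η a l k * V μ s η (a.1 + l, a.2 + k) m) /
      Real.exp (V μ s η a l))) (law μ) ∧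
    ∫ η, ι η * ((∑ k ∈ Finset.Icc (0 : ℤ) l, W μ s η a l k * V μ s η (a.1 + l, a.2 + k) m) /
      Real.exp (V μ s η a l)) ∂(law μ) = (∫ η, ι η ∂(law μ)) * ∫ η, V μ s η 0 m ∂(law μ) := by
  classical
  have hg : ∀ k ∈ Finset.Icc (0 : ℤ) l, ∀ η : Env, 0 ≤ ι η * (W μ s η a l k / Real.exp (V μ s η a l)) ∧
      ι η * (W μ s η a l k / Real.exp (V μ s η a l)) ≤ 1 := by
    intro k hk η
    have h1 : 0 ≤ W μ s η a l k / Real.exp (V μ s η a l) := div_nonneg (W_nonneg _ _ _ _) (Real.exp_pos _).le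
    have h2 : W μ s η a l k / Real.exp (V μ s η a l) ≤ 1 := by
      rw [div_le_one (Real.exp_pos _), exp_V]
      unfold WS
      exact Finset.single_le_sum (f := fun k => W μ s η a l k) (fun k _ => W_nonneg _ _ _ _) hk
    refine ⟨mul_nonneg (hι0 η) h1, ?_⟩
    have h3 := mul_le_mul (hι1 η) h2 h1 zero_le_one
    linarith
  have hgm : ∀ k : ℤ, Measurable fun η : Env => ι η * (W μ s η a l k / Real.exp (V μ s η a l)) := fun k =>
    hιm.mul ((measurable_W a l k).div (Real.measurable_exp.comp (measurable_V a l)))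
  have hgS : ∀ k ∈ Finset.Icc (0 : ℤ) l, Sub fun η => ι η * (W μ s η a l k / Real.exp (V μ s η a l)) := fun k hk =>
    Sub_bdd (hgm k) fun η => by
      rw [abs_of_nonneg (hg k hk η).1]
      exact (hg k hk η).2
  have hgd : ∀ k : ℤ, DependsOn (fun η : Env => ι η * (W μ s η a l k / Real.exp (V μ s η a l)))
      (rows c (a.1 + l)) := by
    intro k η η' h
    have h1 : ∀ x ∈ rows a.1 (a.1 + l), η x = η' x := fun x hx => h x (rows_mono hca le_rfl hx)
    have h2 : V μ s η a l = V μ s η' a l := V_dep_rows (μ := μ) (s := s) a l h1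
    have h3 : W μ s η a l k = W μ s η' a l k := W_dep_rows (μ := μ) (s := s) a l k h1
    have h4 : ι η = ι η' := hιd h
    show ι η * (W μ s η a l k / Real.exp (V μ s η a l)) = ι η' * (W μ s η' a l k / Real.exp (V μ s η' a l))
    rw [h2, h3, h4]
  have hVd : ∀ k : ℤ, DependsOn (fun η : Env => V μ s η (a.1 + l, a.2 + k) m) (rows (a.1 + l) (a.1 + l + m)) :=
    fun k => V_dep_rows (μ := μ) (s := s) (a.1 + l, a.2 + k) m
  have he : ∀ η : Env, ι η * ((∑ k ∈ Finset.Icc (0 : ℤ) l, W μ s η a l k * V μ s η (a.1 + l, a.2 + k) m) /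
      Real.exp (V μ s η a l)) = ∑ k ∈ Finset.Icc (0 : ℤ) l,
        (ι η * (W μ s η a l k / Real.exp (V μ s η a l))) * V μ s η (a.1 + l, a.2 + k) m := by
    intro η
    rw [Finset.sum_div, Finset.mul_sum]
    refine Finset.sum_congr rfl fun k _ => ?_
    ring
  have hint : ∀ k ∈ Finset.Icc (0 : ℤ) l, Integrable (fun η =>
      (ι η * (W μ s η a l k / Real.exp (V μ s η a l))) * V μ s η (a.1 + l, a.2 + k) m) (law μ) := fun k hk =>
    Sub.mul_integrable hEM (hgS k hk) (Sub_V _ _)
  simp only [he]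
  refine ⟨integrable_finsetSum _ hint, ?_⟩
  rw [integral_finsetSum _ hint]
  have h1 : ∀ k ∈ Finset.Icc (0 : ℤ) l, ∫ η, (ι η * (W μ s η a l k / Real.exp (V μ s η a l))) *
      V μ s η (a.1 + l, a.2 + k) m ∂(law μ) =
      (∫ η, ι η * (W μ s η a l k / Real.exp (V μ s η a l)) ∂(law μ)) * ∫ η, V μ s η 0 m ∂(law μ) := by
    intro k _
    rw [integral_indep (hgm k) (measurable_V _ _) (hgd k) (hVd k) (rows_disj le_rfl), integral_V]
  rw [Finset.sum_congr rfl h1, ← Finset.sum_mul, ← integral_finsetSum _ fun k hk => (hgS k hk).integrable hEM]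
  congr 1
  refine integral_congr_ae (Filter.Eventually.of_forall fun η => ?_)
  show ∑ k ∈ Finset.Icc (0 : ℤ) l, ι η * (W μ s η a l k / Real.exp (V μ s η a l)) = ι η
  rw [← Finset.mul_sum, ← Finset.sum_div, exp_V]
  have h2 : 0 < WS μ s η a l (Finset.Icc (0 : ℤ) l) := by
    rw [← exp_V]
    exact Real.exp_pos _
  unfold WS at h2 ⊢
  rw [div_self h2.ne', mul_one]

/-- (2c), THE LUCK BOUND: with `p = P(V_l ≥ Y)`, `N` slots of length `l`, reference points `(i l, z_i)` which cost
at most `A` in the mean (positive part), and `A` also a bound of the mean unluck of the free polymer: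
`(1 - (1 - p) ^ N) Y ≤ (2 + N p) A`. -/
theorem luck_bound (hEM : Pool.Agent.W_7d29a1_h47.EM μ) (s : ℝ) (l N : ℕ) (z : ℕ → ℤ)
    (hz : ∀ i ≤ N, 0 ≤ z i ∧ z i ≤ (i * l : ℕ)) {A Y : ℝ}
    (hX : ∀ i ≤ N, ∫ η, max (X μ s η 0 (i * l) (z i)) 0 ∂(law μ) ≤ A)
    (hV : ∀ i < N, -A ≤ ∫ η, V μ s η 0 ((N - i - 1) * l) ∂(law μ)) :
    (1 - (1 - ∫ η, io (Y ≤ V μ s η 0 l) ∂(law μ)) ^ N) * Y ≤
      (2 + N * ∫ η, io (Y ≤ V μ s η 0 l) ∂(law μ)) * A := by
  classical
  have hA : 0 ≤ A := (integral_nonneg fun η => le_max_right _ _).trans (hX 0 (Nat.zero_le _))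
  obtain ⟨q, hq⟩ : ∃ q : ℝ, q = ∫ η, io (Y ≤ V μ s η 0 l) ∂(law μ) := ⟨_, rfl⟩
  obtain ⟨a, ha⟩ : ∃ a : ℕ → Pt, a = fun i => (((i * l : ℕ) : ℤ), z i) := ⟨_, rfl⟩
  obtain ⟨p, hp⟩ : ∃ p : ℕ → Env → Prop, p = fun i η => Y ≤ V μ s η (a i) l := ⟨_, rfl⟩
  have hpm : ∀ i, MeasurableSet {η | p i η} := by
    intro i
    rw [hp]
    exact measurableSet_le measurable_const (measurable_V _ _)
  obtain ⟨ι, hι⟩ : ∃ ι : ℕ → Env → ℝ, ι = fun i η => io (Fi (Finset.range N) (fun j => j) (fun j => p j η) i) :=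
    ⟨_, rfl⟩
  have hιm : ∀ i ∈ Finset.range N, MeasurableSet {η | Fi (Finset.range N) (fun j => j) (fun j => p j η) i} :=
    fun i hi => meas_Fi (Finset.range N) (fun j => j) (fun j _ => hpm j) hi
  have hιS : ∀ i ∈ Finset.range N, Sub (ι i) := fun i hi => by
    rw [hι]
    exact Sub_io (hιm i hi)
  have hι0 : ∀ i η, 0 ≤ ι i η := fun i η => by rw [hι]; exact io_nonneg _
  have hι1 : ∀ i η, ι i η ≤ 1 := fun i η => by rw [hι]; exact io_le_one _
  have hιsum : ∀ η, ∑ i ∈ Finset.range N, ι i η = io (∃ i ∈ Finset.range N, p i η) := by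
    intro η
    rw [hι]
    exact sum_Fi (Finset.range N) Function.injective_id fun j => p j η
  have hιp : ∀ i η, ι i η * Y ≤ ι i η * V μ s η (a i) l := by
    intro i η
    by_cases h : Fi (Finset.range N) (fun j => j) (fun j => p j η) i
    · have h1 : p i η := h.1
      rw [hp] at h1
      exact mul_le_mul_of_nonneg_left h1 (hι0 i η)
    · have h1 : ι i η = 0 := by
        rw [hι]
        exact io_not h
      rw [h1, zero_mul, zero_mul]
  have hιle : ∀ i η, ι i η ≤ io (p i η) := by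
    intro i η
    by_cases h : p i η
    · rw [io_of h]
      exact hι1 i η
    · have h1 : ι i η = 0 := by
        rw [hι]
        exact io_not fun h2 => h h2.1
      rw [h1, io_not h]
  have hpd : ∀ i j : ℕ, j ≤ i → ∀ η η' : Env, (∀ x ∈ rows 0 (((i + 1) * l : ℕ) : ℤ), η x = η' x) →
      (p j η ↔ p j η') := by
    intro i j hji η η' h
    have h2 : V μ s η (a j) l = V μ s η' (a j) l := by
      refine V_dep_rows (μ := μ) (s := s) _ _ fun x hx => h x (rows_mono ?_ ?_ hx)
      · rw [ha]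
        exact Int.natCast_nonneg _
      · rw [ha]
        show ((j * l : ℕ) : ℤ) + (l : ℤ) ≤ _
        have h3 : (j + 1) * l ≤ (i + 1) * l := Nat.mul_le_mul_right l (by omega)
        have h4 : j * l + l = (j + 1) * l := by ring
        exact_mod_cast h4.le.trans h3
    rw [hp]
    show Y ≤ _ ↔ Y ≤ _
    rw [h2]
  have hιdep : ∀ i ∈ Finset.range N, DependsOn (ι i) (rows 0 (((i + 1) * l : ℕ) : ℤ)) := by
    intro i hi
    rw [hι]
    refine dep_Fi (Finset.range N) (fun j => j) hi fun j _ hle η η' h => hpd i j ?_ η η' h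
    exact hle
  -- the continuation
  obtain ⟨R, hR⟩ : ∃ R : ℕ → Env → ℝ, R = fun i η => (∑ k ∈ Finset.Icc (0 : ℤ) l,
      W μ s η (a i) l k * V μ s η ((a i).1 + l, (a i).2 + k) ((N - i - 1) * l)) / Real.exp (V μ s η (a i) l) :=
    ⟨_, rfl⟩
  have hRi : ∀ i ∈ Finset.range N, Integrable (fun η => ι i η * R i η) (law μ) ∧
      ∫ η, ι i η * R i η ∂(law μ) = (∫ η, ι i η ∂(law μ)) * ∫ η, V μ s η 0 ((N - i - 1) * l) ∂(law μ) := by
    intro i hi
    rw [hR]
    have h1 : (a i).1 + (l : ℤ) = (((i + 1) * l : ℕ) : ℤ) := by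
      rw [ha]
      push_cast
      ring
    have h2 : (0 : ℤ) ≤ (a i).1 := by
      rw [ha]
      exact Int.natCast_nonneg _
    refine continuation hEM (a i) l ((N - i - 1) * l) (hιS i hi).1 (hι0 i) (hι1 i) (c := 0) ?_ ?_ h2
    · rw [h1]
      exact Int.natCast_nonneg _
    · rw [h1]
      exact hιdep i hi
  -- the pointwise inequality
  have hend : ∀ i ∈ Finset.range N, ∀ η : Env, -max (X μ s η 0 (i * l) (z i)) 0 + (V μ s η (a i) l + R i η) ≤
      V μ s η 0 (N * l) := by
    intro i hi η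
    have hiN := Finset.mem_range.1 hi
    have h1 := V_add_ge (μ := μ) (s := s) η (0 : Pt) (i * l) (l + (N - i - 1) * l) (k := z i)
      (hz i hiN.le).1 (hz i hiN.le).2
    have e1 : i * l + (l + (N - i - 1) * l) = N * l := by
      obtain ⟨d, rfl⟩ : ∃ d, N = i + 1 + d := ⟨N - i - 1, by omega⟩
      have : i + 1 + d - i - 1 = d := by omega
      rw [this]
      ring
    rw [e1] at h1
    have e2 : (((0 : Pt).1 + ((i * l : ℕ) : ℤ), (0 : Pt).2 + z i) : Pt) = a i := by
      rw [ha]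
      simp
    rw [e2] at h1
    have h2 := V_add_jensen (μ := μ) (s := s) η (a i) l ((N - i - 1) * l)
    have h3 := le_max_left (X μ s η 0 (i * l) (z i)) 0
    have h4 : R i η = (∑ k ∈ Finset.Icc (0 : ℤ) l,
      W μ s η (a i) l k * V μ s η ((a i).1 + l, (a i).2 + k) ((N - i - 1) * l)) / Real.exp (V μ s η (a i) l) := by
      rw [hR]
    rw [← h4] at h2
    linarith
  have hlast : ∀ η : Env, -max (X μ s η 0 (N * l) (z N)) 0 ≤ V μ s η 0 (N * l) := by
    intro η
    have h1 := neg_X_le_V (μ := μ) (s := s) η (0 : Pt) (n := N * l) (y := z N) (hz N le_rfl).1 (hz N le_rfl).2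
    have h3 := le_max_left (X μ s η 0 (N * l) (z N)) 0
    linarith
  have hpt : ∀ η : Env, io (∃ i ∈ Finset.range N, p i η) * Y + ∑ i ∈ Finset.range N, ι i η * R i η ≤
      V μ s η 0 (N * l) + (∑ i ∈ Finset.range N, io (p i η) * max (X μ s η 0 (i * l) (z i)) 0) +
        max (X μ s η 0 (N * l) (z N)) 0 := by
    intro η
    obtain ⟨v, hv⟩ : ∃ v, v = V μ s η 0 (N * l) := ⟨_, rfl⟩
    have h1 : ∀ i ∈ Finset.range N, ι i η * Y + ι i η * R i η ≤
        ι i η * v + io (p i η) * max (X μ s η 0 (i * l) (z i)) 0 := by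
      intro i hi
      have h2 := mul_le_mul_of_nonneg_left (hend i hi η) (hι0 i η)
      have h3 := hιp i η
      have h4 := mul_le_mul_of_nonneg_right (hιle i η) (le_max_right (X μ s η 0 (i * l) (z i)) 0)
      rw [← hv] at h2
      nlinarith
    have h2 := Finset.sum_le_sum h1
    rw [Finset.sum_add_distrib, ← Finset.sum_mul, Finset.sum_add_distrib, ← Finset.sum_mul, hιsum] at h2
    have h3 := hlast η
    have h4 := le_max_right (X μ s η 0 (N * l) (z N)) 0
    have h5 := io_nonneg (∃ i ∈ Finset.range N, p i η)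
    have h6 := io_le_one (∃ i ∈ Finset.range N, p i η)
    rw [← hv] at h3 ⊢
    nlinarith
  -- integrals
  have hVs : Sub fun η => V μ s η 0 (N * l) := Sub_V _ _
  have hXs : ∀ i ≤ N, Sub fun η => max (X μ s η 0 (i * l) (z i)) 0 := fun i hi =>
    (Sub_X 0 (hz i hi).1 (hz i hi).2).max (Sub.const 0)
  have hexm : MeasurableSet {η | ∃ i ∈ Finset.range N, p i η} := by
    have e : {η | ∃ i ∈ Finset.range N, p i η} = ⋃ i ∈ Finset.range N, {η | p i η} := by
      ext η
      simp only [Set.mem_ofPred_eq, Set.mem_iUnion, exists_prop]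
    rw [e]
    exact Finset.measurableSet_biUnion _ fun i _ => hpm i
  have hq0 : ∀ i : ℕ, ∫ η, io (p i η) ∂(law μ) = q := by
    intro i
    have h1 : Measurable fun x : ℝ => io (Y ≤ x) := by
      have h2 : (fun x : ℝ => io (Y ≤ x)) = fun x => if x ∈ Set.Ici Y then (1 : ℝ) else 0 := by
        funext x
        by_cases h : Y ≤ x
        · rw [io_of h, if_pos (show x ∈ Set.Ici Y from h)]
        · rw [io_not h, if_neg (show ¬ x ∈ Set.Ici Y from h)]
      rw [h2]
      exact Measurable.ite measurableSet_Ici measurable_const measurable_const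
    rw [hq, hp]
    exact integral_V_fun (μ := μ) (s := s) h1 (a i) l
  have hind : ∀ i ∈ Finset.range N, ∫ η, io (p i η) * max (X μ s η 0 (i * l) (z i)) 0 ∂(law μ) ≤ q * A := by
    intro i hi
    have hiN := Finset.mem_range.1 hi
    have h1 : DependsOn (fun η => io (p i η)) (rows ((i * l : ℕ) : ℤ) (((i + 1) * l : ℕ) : ℤ)) := by
      intro η η' h
      have h2 : V μ s η (a i) l = V μ s η' (a i) l := by
        refine V_dep_rows (μ := μ) (s := s) _ _ fun x hx => h x (rows_mono ?_ ?_ hx)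
        · rw [ha]
        · rw [ha]
          show ((i * l : ℕ) : ℤ) + (l : ℤ) ≤ _
          push_cast
          linarith
      show io (p i η) = io (p i η')
      rw [hp]
      show io (Y ≤ _) = io (Y ≤ _)
      rw [h2]
    have h3 : DependsOn (fun η => max (X μ s η 0 (i * l) (z i)) 0) (rows 0 ((i * l : ℕ) : ℤ)) := by
      intro η η' h
      have h4 : X μ s η 0 (i * l) (z i) = X μ s η' 0 (i * l) (z i) := by
        refine X_dep_rows (μ := μ) (s := s) 0 (i * l) (z i) fun x hx => h x (rows_mono ?_ ?_ hx)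
        · exact le_rfl
        · show (0 : ℤ) + ((i * l : ℕ) : ℤ) ≤ _
          rw [zero_add]
      show max (X μ s η 0 (i * l) (z i)) 0 = max (X μ s η' 0 (i * l) (z i)) 0
      rw [h4]
    rw [integral_indep (measurable_io (hpm i)) (hXs i hiN.le).1 h1 h3 (rows_disj le_rfl).symm, hq0]
    refine mul_le_mul_of_nonneg_left (hX i hiN.le) ?_
    rw [hq]
    exact integral_nonneg fun η => io_nonneg _
  have hno := no_hit (μ := μ) (s := s) l N z Y
  have hhit : ∫ η, io (∃ i ∈ Finset.range N, p i η) ∂(law μ) = 1 - (1 - q) ^ N := by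
    have h1 : ∀ η, io (∃ i ∈ Finset.range N, p i η) =
        io (∃ i ∈ Finset.range N, Y ≤ V μ s η (((i * l : ℕ) : ℤ), z i) l) := by
      intro η
      rw [hp, ha]
    rw [integral_sub (integrable_const _), integral_const, probReal_univ, one_smul, ← hq] at hno
    · simp only [h1]
      linarith
    · have h2 := (Sub_io hexm).integrable hEM
      simpa only [h1] using h2
  have I1 : Integrable (fun η => io (∃ i ∈ Finset.range N, p i η) * Y) (law μ) :=
    ((Sub_io hexm).integrable hEM).mul_const Y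
  have I2 : Integrable (fun η => ∑ i ∈ Finset.range N, ι i η * R i η) (law μ) :=
    integrable_finsetSum _ fun i hi => (hRi i hi).1
  have I3 : ∀ i ∈ Finset.range N, Integrable (fun η => io (p i η) * max (X μ s η 0 (i * l) (z i)) 0) (law μ) :=
    fun i hi => Sub.mul_integrable hEM (Sub_io (hpm i)) (hXs i (Finset.mem_range.1 hi).le)
  have I4 : Integrable (fun η => ∑ i ∈ Finset.range N, io (p i η) * max (X μ s η 0 (i * l) (z i)) 0) (law μ) :=
    integrable_finsetSum _ I3
  have I5 := hVs.integrable hEM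
  have I6 := (hXs N le_rfl).integrable hEM
  have I7 : Integrable (fun η => V μ s η 0 (N * l) +
      ∑ i ∈ Finset.range N, io (p i η) * max (X μ s η 0 (i * l) (z i)) 0) (law μ) := I5.add I4
  have hint := integral_mono (I1.add I2) (I7.add I6) hpt
  simp only [Pi.add_apply] at hint
  rw [integral_add I1 I2, integral_add I7 I6, integral_add I5 I4, integral_mul_const, hhit,
    integral_finsetSum _ fun i hi => (hRi i hi).1, integral_finsetSum _ I3] at hint
  have hVn : ∫ η, V μ s η 0 (N * l) ∂(law μ) ≤ 0 := integral_V_nonpos hEM s (N * l)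
  have hXN := hX N le_rfl
  have h1 : ∑ i ∈ Finset.range N, ∫ η, io (p i η) * max (X μ s η 0 (i * l) (z i)) 0 ∂(law μ) ≤ N * (q * A) := by
    refine (Finset.sum_le_sum hind).trans_eq ?_
    rw [Finset.sum_const, Finset.card_range, nsmul_eq_mul]
  have h2 : -(A * (1 - (1 - q) ^ N)) ≤ ∑ i ∈ Finset.range N, ∫ η, ι i η * R i η ∂(law μ) := by
    have h3 : ∀ i ∈ Finset.range N, (∫ η, ι i η ∂(law μ)) * (-A) ≤ ∫ η, ι i η * R i η ∂(law μ) := by
      intro i hi
      rw [(hRi i hi).2]
      exact mul_le_mul_of_nonneg_left (hV i (Finset.mem_range.1 hi)) (integral_nonneg fun η => hι0 i η)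
    have h4 := Finset.sum_le_sum h3
    rw [← Finset.sum_mul, ← integral_finsetSum _ fun i hi => (hιS i hi).integrable hEM] at h4
    have h5 : ∫ η, ∑ i ∈ Finset.range N, ι i η ∂(law μ) = 1 - (1 - q) ^ N := by
      rw [← hhit]
      refine integral_congr_ae (Filter.Eventually.of_forall fun η => ?_)
      exact hιsum η
    rw [h5] at h4
    linarith
  have h6 : (1 - (1 - q) ^ N) ≤ 1 := by
    rw [← hhit]
    have h7 := integral_mono ((Sub_io hexm).integrable hEM) (integrable_const (1 : ℝ)) fun η => io_le_one _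
    simpa using h7
  rw [← hq]
  nlinarith

/-- (2c), final form: if all the reference displacements `(m, z_m)`, `m ≤ M`, cost at most `A` in the mean (positive
part), a luck `Y > 6 A` of a slot of length `l` has probability less than `l / M`. No light cone, no regularity, any
tilt, any law with exponential moments. -/
theorem luck_rare (hEM : Pool.Agent.W_7d29a1_h47.EM μ) (s : ℝ) (l M : ℕ) (z : ℕ → ℤ)
    (hz : ∀ m ≤ M, 0 ≤ z m ∧ z m ≤ m) {A Y : ℝ}
    (hX : ∀ m ≤ M, ∫ η, max (X μ s η 0 m (z m)) 0 ∂(law μ) ≤ A) (hY : 6 * A < Y) :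
    M * ∫ η, io (Y ≤ V μ s η 0 l) ∂(law μ) < l ∨ ∫ η, io (Y ≤ V μ s η 0 l) ∂(law μ) = 0 := by
  obtain ⟨p, hp⟩ : ∃ p : ℝ, p = ∫ η, io (Y ≤ V μ s η 0 l) ∂(law μ) := ⟨_, rfl⟩
  rw [← hp]
  have hA : 0 ≤ A := (integral_nonneg fun η => le_max_right _ _).trans (hX 0 (Nat.zero_le _))
  have hp0 : 0 ≤ p := by
    rw [hp]
    exact integral_nonneg fun η => io_nonneg _
  rcases hp0.eq_or_lt with h0 | h0
  · exact Or.inr h0.symm
  left
  by_contra hcon
  rw [not_lt] at hcon
  have hm : MeasurableSet {η : Env | Y ≤ V μ s η 0 l} := measurableSet_le measurable_const (measurable_V _ _)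
  have hp1 : p ≤ 1 := by
    rw [hp]
    have h7 := integral_mono ((Sub_io hm).integrable hEM) (integrable_const (1 : ℝ)) fun η => io_le_one _
    simpa using h7
  obtain ⟨N, hN⟩ : ∃ N : ℕ, N = ⌊1 / p⌋₊ := ⟨_, rfl⟩
  have hN1 : (N : ℝ) ≤ 1 / p := by
    rw [hN]
    exact Nat.floor_le (by positivity)
  have hN2 : 1 / p < N + 1 := by
    rw [hN]
    exact Nat.lt_floor_add_one _
  have hNp : N * p ≤ 1 := by
    rwa [le_div_iff₀ h0] at hN1
  have hNp2 : 1 < (N + 1) * p := by
    rwa [div_lt_iff₀ h0] at hN2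
  have hN0 : 1 ≤ N := by
    rw [hN]
    refine Nat.le_floor ?_
    rw [Nat.cast_one, le_div_iff₀ h0, one_mul]
    exact hp1
  have hNM : ∀ i ≤ N, i * l ≤ M := by
    intro i hi
    have h1 : ((i * l : ℕ) : ℝ) ≤ M := by
      have h2 : (i : ℝ) ≤ N := by exact_mod_cast hi
      have h3 : (0 : ℝ) ≤ M := Nat.cast_nonneg _
      push_cast
      have h4 : (i : ℝ) * l ≤ N * (M * p) := mul_le_mul h2 hcon (Nat.cast_nonneg _) (Nat.cast_nonneg _)
      nlinarith
    exact_mod_cast h1
  have hlb := luck_bound hEM s l N (fun i => z (i * l)) (fun i hi => hz (i * l) (hNM i hi)) (A := A) (Y := Y)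
    (fun i hi => hX (i * l) (hNM i hi)) (by
      intro i hi
      have h1 : (N - i - 1) * l ≤ M := hNM _ (by omega)
      have h2 := hz _ h1
      have hXs := (Sub_X (μ := μ) (s := s) 0 h2.1 h2.2).max (Sub.const 0)
      have h3 : ∫ η, -max (X μ s η 0 ((N - i - 1) * l) (z ((N - i - 1) * l))) 0 ∂(law μ) ≤
          ∫ η, V μ s η 0 ((N - i - 1) * l) ∂(law μ) := by
        refine integral_mono (hXs.integrable hEM).neg ((Sub_V 0 _).integrable hEM) fun η => ?_
        have h4 := neg_X_le_V (μ := μ) (s := s) η 0 h2.1 h2.2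
        have h5 := le_max_left (X μ s η 0 ((N - i - 1) * l) (z ((N - i - 1) * l))) 0
        show -max (X μ s η 0 ((N - i - 1) * l) (z ((N - i - 1) * l))) 0 ≤ V μ s η 0 ((N - i - 1) * l)
        linarith
      rw [integral_neg] at h3
      have h4 := hX _ h1
      linarith)
  rw [← hp] at hlb
  have hhalf : (1 - p) ^ N ≤ 1 / 2 := by
    have h1 : 1 - p ≤ N / (N + 1) := by
      rw [le_div_iff₀ (by positivity)]
      nlinarith
    have h2 : (1 - p) ^ N ≤ ((N : ℝ) / (N + 1)) ^ N := pow_le_pow_left₀ (by linarith) h1 N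
    have h3 : (2 : ℝ) ≤ ((N + 1 : ℝ) / N) ^ N := by
      have hN' : (0 : ℝ) < N := by exact_mod_cast hN0
      have h4 := one_add_mul_le_pow (a := 1 / (N : ℝ)) (by
        have : 0 < 1 / (N : ℝ) := by positivity
        linarith) N
      have h5 : 1 + (N : ℝ) * (1 / N) = 2 := by
        rw [mul_one_div_cancel hN'.ne']
        norm_num
      have h6 : (1 + 1 / (N : ℝ)) = (N + 1) / N := by
        field_simp
      rw [h5, h6] at h4
      exact h4
    have h4 : ((N : ℝ) / (N + 1)) ^ N = 1 / (((N + 1 : ℝ) / N) ^ N) := by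
      rw [← one_div_pow, one_div_div]
    rw [h4] at h2
    exact h2.trans (one_div_le_one_div_of_le (by norm_num) h3)
  have hY0 : 0 ≤ Y := by linarith
  nlinarith

end Pool.Agent.W_7d29a1_h60
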